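import Mathlib
import Pool.Agent.Q47.HL.Main

/-!
# MP_0f2988_co: `G × ℤ` has a harmonic labeling for every infinite transitive graph `G`
-/

namespace Pool.Agent.Results.MP_0f2988_co.TransitiveTimesZ

open Q47HL

/-- The two-way infinite path on `ℤ`. -/
def line : SimpleGraph ℤ where
  Adj n m := m = n + 1 ∨ n = m + 1
  symm := ⟨fun _ _ h => h.symm⟩
  loopless := ⟨fun n h => by rcases h with h | h <;> omega⟩

/-- A harmonic labeling of a (locally finite) graph `H`: a bijection `φ` from the vertices onto `ℤ`
such that `φ x` is the average of the values of `φ` at the neighbours of `x`, for every `x`. -/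
def IsHarmonicLabeling {W : Type*} (H : SimpleGraph W) (φ : W → ℤ) : Prop :=
  Function.Bijective φ ∧
    ∀ x, (φ x : ℚ) = (1 / ((H.neighborSet x).ncard : ℚ)) * ∑ᶠ y ∈ H.neighborSet x, (φ y : ℚ)

/-- A graph is transitive if its automorphism group acts transitively on the vertices. -/
def IsTransitive {V : Type*} (G : SimpleGraph V) : Prop :=
  ∀ u v : V, ∃ σ : G ≃g G, σ u = v

/-- **Every** infinite, connected, locally finite, transitive graph `G` has a harmonic labeling of
the Cartesian product `G □ ℤ`. -/
theorem result {V : Type*} (G : SimpleGraph V) (hinf : Infinite V) (hconn : G.Connected)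
    (hfin : ∀ v, (G.neighborSet v).Finite) (htr : IsTransitive G) :
    ∃ φ : V × ℤ → ℤ, IsHarmonicLabeling (G □ line) φ := by
  classical
  let _ : G.LocallyFinite := fun v => (hfin v).fintype
  obtain ⟨v0⟩ : Nonempty V := inferInstance
  have hdeg : ∀ v, G.degree v = G.degree v0 := by
    intro v
    obtain ⟨σ, hσ⟩ := htr v0 v
    rw [← hσ]
    exact σ.degree_eq v0
  have hcount : Countable V := by
    have h : (Set.univ : Set V) = ⋃ r : ℕ, {w | G.dist v0 w ≤ r} := by
      ext w
      simp only [Set.mem_univ, Set.mem_iUnion, true_iff]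
      refine ⟨G.dist v0 w, ?_⟩
      change G.dist v0 w ≤ G.dist v0 w
      exact le_refl _
    rw [← Set.countable_univ_iff, h]
    exact Set.countable_iUnion (fun r => (ball_finite G hconn v0 r).countable)
  obtain ⟨φ, hbij, hφ⟩ := exists_labeling G (G.degree v0) hconn hdeg htr
  refine ⟨φ, hbij, ?_⟩
  rintro ⟨v, n⟩
  -- the neighbours
  let N : Finset (V × ℤ) := insert (v, n + 1) (insert (v, n - 1)
    ((G.neighborFinset v).image (fun w => (w, n))))
  have hN : (G □ line).neighborSet (v, n) = (N : Set (V × ℤ)) := by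
    ext ⟨w, m⟩
    simp only [N, SimpleGraph.mem_neighborSet, SimpleGraph.boxProd_adj, line, Finset.coe_insert,
      Finset.coe_image, Set.mem_insert_iff, Prod.mk.injEq, Set.mem_image, Finset.mem_coe,
      SimpleGraph.mem_neighborFinset]
    constructor
    · rintro (⟨h1, h2⟩ | ⟨h1, h2⟩)
      · right; right
        exact ⟨w, h1, rfl, h2⟩
      · rcases h1 with h1 | h1
        · left; exact ⟨h2.symm, h1⟩
        · right; left; exact ⟨h2.symm, by omega⟩
    · rintro (⟨h1, h2⟩ | ⟨h1, h2⟩ | ⟨w', h1, h2, h3⟩)
      · right; exact ⟨Or.inl h2, h1.symm⟩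
      · right; exact ⟨Or.inr (by omega), h1.symm⟩
      · left; exact ⟨by rw [← h2]; exact h1, h3⟩
  have hn1 : (v, n - 1) ∉ (G.neighborFinset v).image (fun w => (w, n)) := by
    rw [Finset.mem_image]
    rintro ⟨w, _, h⟩
    rw [Prod.mk.injEq] at h
    omega
  have hn2 : (v, n + 1) ∉ insert (v, n - 1) ((G.neighborFinset v).image (fun w => (w, n))) := by
    rw [Finset.mem_insert, Finset.mem_image]
    rintro (h | ⟨w, _, h⟩)
    · rw [Prod.mk.injEq] at h
      omega
    · rw [Prod.mk.injEq] at h
      omega
  have hinj : Function.Injective (fun w : V => (w, n)) := fun a b h => (Prod.mk.inj h).1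
  have hcard : N.card = G.degree v0 + 2 := by
    simp only [N]
    rw [Finset.card_insert_of_notMem hn2, Finset.card_insert_of_notMem hn1,
      Finset.card_image_of_injective _ hinj, SimpleGraph.card_neighborFinset_eq_degree, hdeg v]
  rw [hN, Set.ncard_coe_finset, finsum_mem_coe_finset, hcard]
  have hsum : ∑ y ∈ N, (φ y : ℚ) = ((G.degree v0 : ℚ) + 2) * φ (v, n) := by
    simp only [N]
    rw [Finset.sum_insert hn2, Finset.sum_insert hn1, Finset.sum_image (fun a _ b _ h => hinj h)]
    have := hφ v n
    have h2 : ((φ (v, n + 1) + φ (v, n - 1) + ∑ w ∈ G.neighborFinset v, φ (w, n) : ℤ) : ℚ) =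
        ((((G.degree v0 : ℤ) + 2) * φ (v, n) : ℤ) : ℚ) := by rw [this]
    push_cast at h2
    linarith
  rw [hsum]
  push_cast
  have : ((G.degree v0 : ℚ) + 2) ≠ 0 := by positivity
  field_simp

end Pool.Agent.Results.MP_0f2988_co.TransitiveTimesZ
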